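import Pool.Agent.Y915.Stm2
import Pool.Agent.Y243.PC.ModP

set_option autoImplicit false

/-!
# Rational solutions modulo `p` give a nondegenerate matrix of power series: the curves `s² = 1 + 4 P(x)`
-/

namespace Pool.Agent.Y641.PC

open Pool.Agent.Y915 (Full GT dM aevZ aevZ_eq cst_poly)
open Pool.Agent.Y915.Hyp
open Pool.Agent.Y243.PC (exists_const_rel D_ringHom theta map_derivative)
open scoped PowerSeries Polynomial
open Matrix

section gen

variable {R S : Type*} [CommRing R] [CommRing S]

lemma map_aevZ (P : ℤ[X]) (φ : R →+* S) (x : R) : φ (aevZ x P) = aevZ (φ x) P := by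
  rw [aevZ_eq, aevZ_eq, Polynomial.hom_eval₂]
  congr 1
  exact RingHom.ext_int _ _

lemma delta_eq (P : ℤ[X]) (D : R → R) (x y : R) : delta P D x y =
    (1 + 4 * aevZ x P) * D (D y) + 2 * aevZ x (Polynomial.derivative P) * D y := rfl

lemma map_delta (P : ℤ[X]) (φ : R →+* S) (D : R → R) (D' : S → S)
    (h : ∀ y, φ (D y) = D' (φ y)) (x y : R) :
    φ (delta P D x y) = delta P D' (φ x) (φ y) := by
  simp only [delta_eq, map_add, map_mul, map_one, map_aevZ, h, map_ofNat]

lemma map_delta_iter (P : ℤ[X]) (φ : R →+* S) (D : R → R) (D' : S → S)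
    (h : ∀ y, φ (D y) = D' (φ y)) (x : R) (k : ℕ) (y : R) :
    φ ((delta P D x)^[k] y) = (delta P D' (φ x))^[k] (φ y) := by
  induction k generalizing y with
  | zero => rfl
  | succ k ih =>
    rw [Function.iterate_succ_apply, Function.iterate_succ_apply, ih, map_delta P φ D D' h]

lemma map_base (P : ℤ[X]) (φ : R →+* S) (D : R → R) (D' : S → S)
    (h : ∀ y, φ (D y) = D' (φ y)) (x : R) (i : ℕ) (y : R) :
    φ (base P D x i y) = base P D' (φ x) i (φ y) := by
  unfold base
  split_ifs
  · exact map_delta_iter P φ D D' h x _ y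
  · rw [h, map_delta_iter P φ D D' h]

lemma oper_def (P : ℤ[X]) (N : ℕ) (M : ℤ) (a : Fin N → ℤ[X]) (D : R → R) (x y : R) :
    oper P N M a D x y = base P D x N y + ∑ i : Fin N, (M : R) ^ (N - (i : ℕ)) * aevZ x (a i) *
      (if Even N ∧ Odd (i : ℕ) then 1 + 4 * aevZ x P else 1) * base P D x i y := rfl

lemma map_oper (P : ℤ[X]) (N : ℕ) (M : ℤ) (a : Fin N → ℤ[X]) (φ : R →+* S) (D : R → R)
    (D' : S → S) (h : ∀ y, φ (D y) = D' (φ y)) (x y : R) :
    φ (oper P N M a D x y) = oper P N M a D' (φ x) (φ y) := by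
  rw [oper_def, oper_def, map_add, map_base P φ D D' h, map_sum]
  congr 1
  refine Finset.sum_congr rfl fun i _ => ?_
  rw [map_mul, map_mul, map_mul, map_base P φ D D' h, map_pow, map_intCast]
  rw [map_aevZ]
  congr 2
  split_ifs
  · simp only [map_add, map_mul, map_one, map_aevZ, map_ofNat]
  · exact map_one φ

/-- constants come out -/
lemma delta_const (P : ℤ[X]) (D : Derivation ℤ R R) (x e y : R) (he : D e = 0) :
    delta P D x (e * y) = e * delta P D x y := by
  have h1 : ∀ z, D (e * z) = e * D z := fun z => by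
    rw [Derivation.leibniz, he, smul_zero, add_zero, smul_eq_mul]
  simp only [delta_eq, h1]
  ring

lemma delta_iter_const (P : ℤ[X]) (D : Derivation ℤ R R) (x e y : R) (he : D e = 0)
    (k : ℕ) : (delta P D x)^[k] (e * y) = e * (delta P D x)^[k] y := by
  induction k generalizing y with
  | zero => rfl
  | succ k ih =>
    rw [Function.iterate_succ_apply, Function.iterate_succ_apply, delta_const P D x e y he, ih]

lemma base_const (P : ℤ[X]) (D : Derivation ℤ R R) (x e y : R) (he : D e = 0)
    (i : ℕ) : base P D x i (e * y) = e * base P D x i y := by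
  unfold base
  split_ifs
  · exact delta_iter_const P D x e y he _
  · rw [delta_iter_const P D x e y he, Derivation.leibniz, he, smul_zero, add_zero, smul_eq_mul]

lemma oper_const (P : ℤ[X]) (N : ℕ) (M : ℤ) (a : Fin N → ℤ[X]) (D : Derivation ℤ R R)
    (x e y : R) (he : D e = 0) :
    oper P N M a D x (e * y) = e * oper P N M a D x y := by
  rw [oper_def, oper_def, base_const P D x e y he, mul_add, Finset.mul_sum]
  congr 1
  refine Finset.sum_congr rfl fun i _ => ?_
  rw [base_const P D x e y he]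
  ring

lemma base_zero (P : ℤ[X]) (D : R → R) (x y : R) : base P D x 0 y = y := by
  simp [base]

lemma base_succ_even (P : ℤ[X]) (D : R → R) (x y : R) {i : ℕ} (hi : Even i) :
    base P D x (i + 1) y = D (base P D x i y) := by
  obtain ⟨k, rfl⟩ := hi
  have h1 : ¬ Even (k + k + 1) := by
    rw [Nat.not_even_iff_odd]
    exact ⟨k, by ring⟩
  have h2 : (k + k + 1) / 2 = k := by omega
  have h3 : (k + k) / 2 = k := by omega
  unfold base
  rw [if_neg h1, if_pos ⟨k, rfl⟩, h2, h3]

lemma base_succ_odd (P : ℤ[X]) (D : R → R) (x y : R) {i : ℕ} (hi : Odd i) :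
    base P D x (i + 1) y = (1 + 4 * aevZ x P) * D (base P D x i y) +
      2 * aevZ x (Polynomial.derivative P) * base P D x i y := by
  obtain ⟨k, rfl⟩ := hi
  have h1 : Even (2 * k + 1 + 1) := ⟨k + 1, by ring⟩
  have h0 : ¬ Even (2 * k + 1) := by
    rw [Nat.not_even_iff_odd]
    exact ⟨k, rfl⟩
  have h2 : (2 * k + 1 + 1) / 2 = k + 1 := by omega
  have h3 : (2 * k + 1) / 2 = k := by omega
  unfold base
  rw [if_pos h1, if_neg h0, h2, h3, Function.iterate_succ_apply']
  rfl

end gen

/-! ### the matrix of the `B_i y_j` over a field -/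

section fld

variable {F : Type*} [Field F]

/-- If the `B_i y_j` form a degenerate matrix then the solutions are dependent. -/
lemma dep_of_det (P : ℤ[X]) {N : ℕ} (hN : 1 ≤ N) (M : ℤ) (a : Fin N → ℤ[X])
    (D : Derivation ℤ F F) (x : F) (hF : (1 + 4 * aevZ x P) ≠ 0) (y : Fin N → F)
    (hy : ∀ j, oper P N M a D x (y j) = 0)
    (hdet : (Matrix.of fun i j : Fin N => base P D x i (y j)).det = 0) :
    ∃ b : Fin N → F, b ≠ 0 ∧ (∀ j, D (b j) = 0) ∧ ∑ j, b j * y j = 0 := by
  classical
  set Φ : F := 1 + 4 * aevZ x P with hΦ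
  -- coefficients of the last row
  let r : Fin N → F := fun i => -((M : F) ^ (N - (i : ℕ)) * aevZ x (a i) *
    (if Even N ∧ Odd (i : ℕ) then Φ else 1))
  have hlast : ∀ j, base P D x N (y j) = ∑ i : Fin N, r i * base P D x i (y j) := by
    intro j
    have h := hy j
    rw [oper_def] at h
    rw [eq_neg_of_add_eq_zero_left h, ← Finset.sum_neg_distrib]
    refine Finset.sum_congr rfl fun i _ => ?_
    simp only [r, hΦ]
    ring
  -- next row
  let q : ℕ → Fin N → F := fun k i => if h : k < N then (if (i : ℕ) = k then 1 else 0) else r i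
  have hq : ∀ (k : ℕ), k ≤ N → ∀ j,
      base P D x k (y j) = ∑ i : Fin N, q k i * base P D x i (y j) := by
    intro k hk j
    by_cases h : k < N
    · simp only [q, h, dif_pos]
      rw [Finset.sum_eq_single (⟨k, h⟩ : Fin N)]
      · simp
      · intro b _ hb
        have : (b : ℕ) ≠ k := fun h' => hb (Fin.ext h')
        simp [this]
      · intro h'
        exact absurd (Finset.mem_univ _) h'
    · have hk' : k = N := le_antisymm hk (not_lt.mp h)
      subst hk'
      simp only [q, lt_irrefl, dif_neg, not_false_eq_true]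
      exact hlast j
  let B : Matrix (Fin N) (Fin N) F := Matrix.of fun i l =>
    if Even (i : ℕ) then q (i + 1) l
    else Φ⁻¹ * (q (i + 1) l - 2 * aevZ x (Polynomial.derivative P) * (if l = i then 1 else 0))
  have hB : (Matrix.of fun i j : Fin N => base P D x i (y j)).map D =
      B * (Matrix.of fun i j : Fin N => base P D x i (y j)) := by
    ext i j
    rw [Matrix.map_apply, Matrix.mul_apply, Matrix.of_apply]
    simp only [B, Matrix.of_apply]
    by_cases hi : Even (i : ℕ)
    · simp only [hi, if_true]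
      rw [← base_succ_even P D x (y j) hi]
      exact hq _ i.isLt j
    · simp only [hi, if_false]
      have h1 := base_succ_odd P D x (y j) (Nat.not_even_iff_odd.mp hi)
      rw [hq _ i.isLt j] at h1
      have h2 : ∑ l : Fin N, Φ⁻¹ * (q (i + 1) l - 2 * aevZ x (Polynomial.derivative P) *
          (if l = i then 1 else 0)) * base P D x l (y j) =
          Φ⁻¹ * (∑ l : Fin N, q (i + 1) l * base P D x l (y j) -
            2 * aevZ x (Polynomial.derivative P) * base P D x i (y j)) := by
        rw [mul_sub, Finset.mul_sum]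
        have h3 : Φ⁻¹ * (2 * aevZ x (Polynomial.derivative P) * base P D x i (y j)) =
            ∑ l : Fin N, Φ⁻¹ * (2 * aevZ x (Polynomial.derivative P) *
              (if l = i then 1 else 0)) * base P D x l (y j) := by
          rw [Finset.sum_eq_single i]
          · simp
            ring
          · intro l _ hl
            simp [hl]
          · intro h'
            exact absurd (Finset.mem_univ _) h'
        rw [h3, ← Finset.sum_sub_distrib]
        refine Finset.sum_congr rfl fun l _ => ?_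
        ring
      rw [h2, h1]
      field_simp
      ring
  obtain ⟨b, hb0, hb1, hb2⟩ := exists_const_rel D _ B hB hdet
  refine ⟨b, hb0, hb1, ?_⟩
  have h0 := congrFun hb2 ⟨0, hN⟩
  simp only [Matrix.mulVec, dotProduct, Matrix.of_apply, base_zero, Pi.zero_apply] at h0
  rw [← h0]
  exact Finset.sum_congr rfl fun j _ => mul_comm _ _

end fld

/-! ### polynomial solutions -/

section modp

variable {p : ℕ} [Fact p.Prime]

open Polynomial in
theorem exists_poly_gen {K : Type*} [Field K] (φ : (ZMod p)[X] →+* K)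
    (hinj : Function.Injective φ) (hfr : ∀ y : K, ∃ g d : (ZMod p)[X], d ≠ 0 ∧ y * φ d = φ g)
    (P : ℤ[X]) (hP0 : P.coeff 0 = 0) (N : ℕ) (hN : 1 ≤ N) (M : ℤ)
    (a : Fin N → ℤ[X]) (h : Full N (fun D y => oper P N M a D (φ X) y) (φ X)) :
    ∃ f : Fin N → (ZMod p)[X],
      (∀ j, oper P N M a (derivative (R := ZMod p)) (X : (ZMod p)[X]) (f j) = 0) ∧
      (Matrix.of fun i j : Fin N =>
        base P (derivative (R := ZMod p)) (X : (ZMod p)[X]) i (f j)).det ≠ 0 := by
  classical
  obtain ⟨D, hD, y, hy₀, hind⟩ := h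
  have hy : ∀ j, oper P N M a D (φ X) (y j) = 0 := hy₀
  have hφ : ∀ z : (ZMod p)[X], D (φ z) = φ (derivative z) := D_ringHom D φ hD
  choose g d hd hgd using fun j => hfr (y j)
  let f : Fin N → (ZMod p)[X] := fun j => g j * (d j) ^ (p - 1)
  let e : Fin N → K := fun j => φ (d j ^ p)
  have hp : 0 < p := (Fact.out : p.Prime).pos
  have he0 : ∀ j, e j ≠ 0 := fun j => by
    simp only [e, ne_eq, map_eq_zero_iff _ hinj]
    exact pow_ne_zero _ (hd j)
  have heD : ∀ j, D (e j) = 0 := by
    intro j
    simp only [e]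
    rw [hφ, derivative_pow]
    simp
  have hf : ∀ j, φ (f j) = e j * y j := by
    intro j
    have h3 : d j ^ p = d j ^ (p - 1) * d j := by rw [← pow_succ, Nat.sub_add_cancel hp]
    simp only [e, f]
    rw [h3, map_mul, map_mul, ← hgd j]
    ring
  refine ⟨f, fun j => ?_, fun h0 => ?_⟩
  · apply hinj
    rw [map_zero, map_oper P N M a φ
      (derivative (R := ZMod p)) D (fun z => (hφ z).symm), hf,
      oper_const P N M a D _ _ _ (heD j), hy j, mul_zero]
  · have h1 : (Matrix.of fun i j : Fin N => base P D (φ X) i (e j * y j)).det = 0 := by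
      have h2 : (Matrix.of fun i j : Fin N => base P D (φ X) i (e j * y j)) =
          φ.mapMatrix (Matrix.of fun i j : Fin N =>
              base P (derivative (R := ZMod p)) (X : (ZMod p)[X]) i (f j)) := by
        ext i j
        simp only [Matrix.of_apply, RingHom.mapMatrix_apply, Matrix.map_apply]
        rw [map_base P φ (derivative (R := ZMod p)) D (fun z => (hφ z).symm), hf]
      rw [h2, ← RingHom.map_det, h0, map_zero]
    have hF : (1 + 4 * aevZ (φ X) P) ≠ 0 := by
      have h3 : (1 + 4 * aevZ (φ X) P) = φ (1 + 4 * aevZ (X : (ZMod p)[X]) P) := by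
        rw [map_add, map_mul, map_one, map_aevZ P φ X, map_ofNat]
      rw [h3, ne_eq, map_eq_zero_iff _ hinj]
      intro h4
      have h5 := congrArg (Polynomial.evalRingHom 0) h4
      rw [map_add, map_mul, map_one, map_aevZ, map_ofNat, map_zero] at h5
      have h6 : aevZ (Polynomial.evalRingHom (0 : ZMod p) X) P = 0 := by
        rw [aevZ_eq, Polynomial.coe_evalRingHom, Polynomial.eval_X, Polynomial.eval₂_at_zero, hP0,
          map_zero]
      rw [h6, mul_zero, add_zero] at h5
      exact one_ne_zero h5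
    obtain ⟨b, hb0, hb1, hb2⟩ := dep_of_det P hN M a D (φ X) hF
      (fun j => e j * y j) (fun j => by
        rw [oper_const P N M a D _ _ _ (heD j), hy j, mul_zero]) h1
    apply hb0
    funext j
    have h6 := hind (fun j => b j * e j) (fun j => by
      rw [Derivation.leibniz, hb1 j, heD j, smul_zero, smul_zero, add_zero]) (by
        rw [← hb2]
        exact Finset.sum_congr rfl fun j _ => by ring) j
    exact (mul_eq_zero.mp h6).resolve_right (he0 j)

open Polynomial in
theorem exists_poly (P : ℤ[X]) (hP0 : P.coeff 0 = 0) (N : ℕ) (hN : 1 ≤ N) (M : ℤ)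
    (a : Fin N → ℤ[X]) (h : FullMod P N M a p) :
    ∃ f : Fin N → (ZMod p)[X],
      (∀ j, oper P N M a (derivative (R := ZMod p)) (X : (ZMod p)[X]) (f j) = 0) ∧
      (Matrix.of fun i j : Fin N =>
        base P (derivative (R := ZMod p)) (X : (ZMod p)[X]) i (f j)).det ≠ 0 := by
  have h' : Full N (fun D y => oper P N M a D (RatFunc.X : RatFunc (ZMod p)) y)
    (RatFunc.X : RatFunc (ZMod p)) := h.choose_spec
  refine exists_poly_gen (algebraMap (ZMod p)[X] (RatFunc (ZMod p)))
    (IsFractionRing.injective _ _) (fun y => ?_) P hP0 N hN M a ?_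
  · refine ⟨y.num, y.denom, RatFunc.denom_ne_zero _, ?_⟩
    have h1 := RatFunc.num_div_denom y
    have h2 : algebraMap (ZMod p)[X] (RatFunc (ZMod p)) y.denom ≠ 0 := by
      rw [ne_eq, map_eq_zero_iff _ (IsFractionRing.injective _ _)]
      exact RatFunc.denom_ne_zero _
    exact (eq_div_iff h2).mp h1.symm
  · rw [RatFunc.algebraMap_X]
    exact h'

end modp

/-! ### power series -/

section ps

variable {R : Type} [CommRing R]

lemma theta_iter (P : ℤ[X]) (s : R⟦X⟧)
    (hs : s ^ 2 = 1 + 4 * aevZ (PowerSeries.X : R⟦X⟧) P)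
    (hs' : s * PowerSeries.derivative R s =
      2 * aevZ (PowerSeries.X : R⟦X⟧) (Polynomial.derivative P)) (i : ℕ) (y : R⟦X⟧) :
    (theta s)^[i] y = (if Even i then 1 else s) *
      base P (PowerSeries.derivative R) (PowerSeries.X : R⟦X⟧) i y := by
  induction i with
  | zero => simp [base_zero]
  | succ i ih =>
    rw [Function.iterate_succ_apply', ih]
    by_cases hi : Even i
    · have hi' : ¬ Even (i + 1) := by
        rw [Nat.even_add_one, not_not]
        exact hi
      rw [if_pos hi, if_neg hi', one_mul, base_succ_even P _ _ y hi]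
      rfl
    · have hi' : Even (i + 1) := Nat.even_add_one.mpr hi
      rw [if_neg hi, if_pos hi', one_mul,
        base_succ_odd P _ _ y (Nat.not_even_iff_odd.mp hi), theta, Derivation.leibniz,
        smul_eq_mul, smul_eq_mul, ← hs, ← hs']
      ring

end ps

section final

variable {p : ℕ} [Fact p.Prime]

theorem modP2 : StModP2 := by
  intro P N M a s w p _ hP0 hN hrt hM hfull
  classical
  obtain ⟨f, hf, hdet⟩ := exists_poly P hP0 N hN M a hfull
  -- the reduction
  set π : ℤ⟦X⟧ →+* (ZMod p)⟦X⟧ := PowerSeries.map (Int.castRingHom (ZMod p)) with hπ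
  set σ : (ZMod p)⟦X⟧ := π s with hσ
  set ω : (ZMod p)⟦X⟧ := π w with hω
  have hσ2 : σ ^ 2 = 1 + 4 * aevZ (PowerSeries.X : (ZMod p)⟦X⟧) P := by
    have := congrArg π hrt.sq
    rw [map_pow, map_add, map_one, map_mul, map_ofNat, hπ, cst_poly] at this
    rw [hσ, hπ, this]
  have hσd : σ * PowerSeries.derivative (ZMod p) σ =
      2 * aevZ (PowerSeries.X : (ZMod p)⟦X⟧) (Polynomial.derivative P) := by
    have := congrArg π hrt.der
    rw [map_mul, map_mul, map_ofNat, hπ, map_derivative, cst_poly] at this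
    rw [hσ, hπ]
    exact this
  have hσω : σ * ω = 1 := by
    have := congrArg π hrt.inv
    rwa [map_mul, map_one] at this
  have hσ0 : σ ≠ 0 := left_ne_zero_of_mul_eq_one hσω
  -- the unit `M`
  have hM0 : (M : ZMod p) ≠ 0 := by
    rwa [ne_eq, ZMod.intCast_zmod_eq_zero_iff_dvd]
  set μ : (ZMod p)⟦X⟧ := PowerSeries.C ((M : ZMod p)⁻¹) with hμ
  have hMμ : (M : (ZMod p)⟦X⟧) * μ = 1 := by
    have h1 : (M : (ZMod p)⟦X⟧) = PowerSeries.C (M : ZMod p) := by simp
    rw [h1, hμ, ← map_mul, mul_inv_cancel₀ hM0, map_one]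
  have hμ0 : μ ≠ 0 := right_ne_zero_of_mul_eq_one hMμ
  have hdμ : ∀ (i : ℕ) (y : (ZMod p)⟦X⟧), PowerSeries.derivative (ZMod p) (μ ^ i * y) =
      μ ^ i * PowerSeries.derivative (ZMod p) y := by
    intro i y
    have h1 : μ ^ i = PowerSeries.C ((M : ZMod p)⁻¹ ^ i) := by rw [hμ, map_pow]
    rw [h1, Derivation.leibniz]
    have h2 : PowerSeries.derivative (ZMod p) (PowerSeries.C ((M : ZMod p)⁻¹ ^ i)) = 0 :=
      PowerSeries.derivative_C
    rw [h2, smul_zero, add_zero, smul_eq_mul]
  -- the solutions as power series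
  let ι : (ZMod p)[X] →+* (ZMod p)⟦X⟧ := Polynomial.coeToPowerSeries.ringHom
  have hι : ∀ z : (ZMod p)[X], ι (Polynomial.derivative z) =
      PowerSeries.derivative (ZMod p) (ι z) := by
    intro z
    simp only [ι, Polynomial.coeToPowerSeries.ringHom_apply]
    exact (PowerSeries.derivative_coe z).symm
  have hιX : ι (Polynomial.X : (ZMod p)[X]) = PowerSeries.X := by
    simp [ι]
  let g : Fin N → (ZMod p)⟦X⟧ := fun j => ι (f j)
  have hg : ∀ j, oper P N M a (PowerSeries.derivative (ZMod p))
      (PowerSeries.X : (ZMod p)⟦X⟧) (g j) = 0 := by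
    intro j
    have := congrArg ι (hf j)
    rwa [map_zero, map_oper P N M a ι _ (PowerSeries.derivative (ZMod p)) hι, hιX] at this
  have hgdet : (Matrix.of fun i j : Fin N =>
      base P (PowerSeries.derivative (ZMod p)) (PowerSeries.X : (ZMod p)⟦X⟧) i (g j)).det
        ≠ 0 := by
    have h2 : (Matrix.of fun i j : Fin N =>
        base P (PowerSeries.derivative (ZMod p)) (PowerSeries.X : (ZMod p)⟦X⟧) i (g j)) =
        ι.mapMatrix (Matrix.of fun i j : Fin N =>
          base P (Polynomial.derivative (R := ZMod p)) (Polynomial.X : (ZMod p)[X]) i (f j)) := by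
      ext1 i j
      simp only [Matrix.of_apply, RingHom.mapMatrix_apply, Matrix.map_apply]
      rw [map_base P ι _ (PowerSeries.derivative (ZMod p)) hι, hιX]
    rw [h2, ← RingHom.map_det]
    intro h0
    apply hdet
    have hinj : Function.Injective ι := Polynomial.coe_injective (ZMod p)
    exact hinj (by rw [h0, map_zero])
  have hθ : ∀ (i : ℕ) (j : Fin N), (theta σ)^[i] (g j) = (if Even i then 1 else σ) *
      base P (PowerSeries.derivative (ZMod p)) (PowerSeries.X : (ZMod p)⟦X⟧) i (g j) :=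
    fun i j => theta_iter P σ hσ2 hσd i (g j)
  -- the top relation
  let ψ : ℤ[X] →+* (ZMod p)⟦X⟧ := π.comp (Polynomial.coeToPowerSeries.ringHom : ℤ[X] →+* ℤ⟦X⟧)
  have hψX : ψ Polynomial.X = PowerSeries.X := by
    simp [ψ, hπ]
  have hψa : ∀ q : ℤ[X], aevZ (PowerSeries.X : (ZMod p)⟦X⟧) q = ψ q := fun q =>
    (cst_poly (K := ZMod p) q).symm
  have htop : ∀ j, (theta σ)^[N] (g j) = -∑ l : Fin N, (M : (ZMod p)⟦X⟧) ^ (N - (l : ℕ)) *
      (ψ (a l) * (if Even (N - (l : ℕ)) then 1 else σ)) * (theta σ)^[(l : ℕ)] (g j) := by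
    intro j
    have h1 := hg j
    rw [oper_def] at h1
    rw [hθ, eq_neg_of_add_eq_zero_left h1, mul_neg, Finset.mul_sum]
    congr 1
    refine Finset.sum_congr rfl fun l _ => ?_
    rw [hθ, ← hψa]
    have hlN : (l : ℕ) ≤ N := l.isLt.le
    by_cases hNe : Even N
    · by_cases hl : Even (l : ℕ)
      · have h3 : Even (N - (l : ℕ)) := (Nat.even_sub hlN).mpr (by simp [hNe, hl])
        have h4 : ¬ (Even N ∧ Odd (l : ℕ)) := fun h => (Nat.not_even_iff_odd.mpr h.2) hl
        rw [if_pos hNe, if_pos hl, if_pos h3, if_neg h4]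
        ring
      · have h3 : ¬ Even (N - (l : ℕ)) := by
          rw [Nat.even_sub hlN]
          simp [hNe, hl]
        have h4 : (Even N ∧ Odd (l : ℕ)) := ⟨hNe, Nat.not_even_iff_odd.mp hl⟩
        rw [if_pos hNe, if_neg hl, if_neg h3, if_pos h4, ← hσ2]
        ring
    · have h4 : ¬ (Even N ∧ Odd (l : ℕ)) := fun h => hNe h.1
      rw [if_neg hNe, if_neg h4]
      by_cases hl : Even (l : ℕ)
      · have h3 : ¬ Even (N - (l : ℕ)) := by
          rw [Nat.even_sub hlN]
          simp [hNe, hl]
        rw [if_pos hl, if_neg h3]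
        ring
      · have h3 : Even (N - (l : ℕ)) := (Nat.even_sub hlN).mpr (by simp [hNe, hl])
        rw [if_neg hl, if_pos h3]
        ring
  -- the matrix
  let Y : Matrix (Fin N) (Fin N) (ZMod p)⟦X⟧ :=
    Matrix.of fun i j => μ ^ (i : ℕ) * (theta σ)^[(i : ℕ)] (g j)
  refine ⟨Y, ?_, ?_⟩
  · have h1 : Y = Matrix.of fun i j : Fin N =>
        (μ ^ (i : ℕ) * (if Even (i : ℕ) then 1 else σ)) *
          (Matrix.of fun i j : Fin N =>
            base P (PowerSeries.derivative (ZMod p)) (PowerSeries.X : (ZMod p)⟦X⟧) i (g j))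
              i j := by
      ext1 i j
      simp only [Y, Matrix.of_apply]
      rw [hθ]
      ring
    rw [h1, Matrix.det_mul_column]
    refine mul_ne_zero ?_ hgdet
    refine Finset.prod_ne_zero_iff.mpr fun i _ => mul_ne_zero (pow_ne_zero _ hμ0) ?_
    split_ifs
    · exact one_ne_zero
    · exact hσ0
  · have hder : ∀ y : (ZMod p)⟦X⟧, PowerSeries.derivative (ZMod p) y = ω * theta σ y := by
      intro y
      rw [theta, ← mul_assoc, mul_comm ω σ, hσω, one_mul]
    ext1 i j
    simp only [dM, Matrix.map_apply, Matrix.mul_apply, Y, Matrix.of_apply, Matrix.smul_apply, GT]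
    rw [hdμ, hder, ← Function.iterate_succ_apply' (theta σ)]
    by_cases hi : (i : ℕ) + 1 < N
    · rw [Finset.sum_eq_single (⟨(i : ℕ) + 1, hi⟩ : Fin N)]
      · simp only [hi, if_true, mul_one, zsmul_eq_mul, map_mul, map_intCast]
        rw [← hω, pow_succ, Nat.succ_eq_add_one]
        have : (M : (ZMod p)⟦X⟧) * ω * (μ ^ (i : ℕ) * μ * (theta σ)^[(i : ℕ) + 1] (g j)) =
            ((M : (ZMod p)⟦X⟧) * μ) * (μ ^ (i : ℕ) * (ω * (theta σ)^[(i : ℕ) + 1] (g j))) := by
          ring
        rw [this, hMμ, one_mul]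
      · intro l _ hl
        have h2 : (l : ℕ) ≠ (i : ℕ) + 1 := fun h' => hl (Fin.ext h')
        simp [hi, h2]
      · intro h'
        exact absurd (Finset.mem_univ _) h'
    · have hiN : (i : ℕ) + 1 = N := by have := i.isLt; omega
      rw [Nat.succ_eq_add_one]
      simp only [hi, if_false, zsmul_eq_mul, map_mul, map_intCast, map_neg]
      rw [hiN, htop]
      rw [mul_neg, mul_neg, Finset.mul_sum, Finset.mul_sum, ← Finset.sum_neg_distrib]
      refine Finset.sum_congr rfl fun l _ => ?_
      rw [← hω]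
      have h11 : π (a l : ℤ⟦X⟧) = ψ (a l) := rfl
      rw [h11]
      have h5 : π (if Even (N - (l : ℕ)) then 1 else s) = (if Even (N - (l : ℕ)) then 1 else σ) := by
        split_ifs
        · exact map_one π
        · rfl
      rw [h5]
      -- powers of `M`
      have h6 : μ ^ (i : ℕ) * (M : (ZMod p)⟦X⟧) ^ (N - (l : ℕ)) = (M : (ZMod p)⟦X⟧) * μ ^ (l : ℕ) := by
        have h7 : (i : ℕ) = (N - 1 - (l : ℕ)) + (l : ℕ) := by have := l.isLt; omega
        have h8 : N - (l : ℕ) = (N - 1 - (l : ℕ)) + 1 := by have := l.isLt; omega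
        rw [h8, h7, pow_add, pow_succ]
        have h9 : μ ^ (N - 1 - (l : ℕ)) * μ ^ (l : ℕ) *
            ((M : (ZMod p)⟦X⟧) ^ (N - 1 - (l : ℕ)) * (M : (ZMod p)⟦X⟧)) =
            ((M : (ZMod p)⟦X⟧) * μ) ^ (N - 1 - (l : ℕ)) * ((M : (ZMod p)⟦X⟧) * μ ^ (l : ℕ)) := by
          rw [mul_pow]
          ring
        rw [h9, hMμ, one_pow, one_mul]
      have h10 : ∀ A B C : (ZMod p)⟦X⟧,
          μ ^ (i : ℕ) * (ω * ((M : (ZMod p)⟦X⟧) ^ (N - (l : ℕ)) * (A * B) * C)) =
          (μ ^ (i : ℕ) * (M : (ZMod p)⟦X⟧) ^ (N - (l : ℕ))) * (ω * A * B * C) := by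
        intro A B C
        ring
      rw [h10, h6]
      ring

end final

end Pool.Agent.Y641.PC
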